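import Pool.Agent.Q224.OD.CHBa
import Pool.Agent.W401.Cheb.Main

/-! # Project OD (helper161), job CHB (helper224) -/

set_option autoImplicit false

namespace Pool.Agent.Q224.OD

open Polynomial NumberField Finset
open Pool.Agent.Q51.EL
open Pool.Agent.Q161.SX
open Pool.Agent.Q161.OD
open Pool.Agent.W401.Cheb (TaskTor HasFrob Chebotarev xp)

theorem abel_sum {d : ℕ → ℝ} {K0 : ℝ} (h0 : d 0 = 0) (hK : ∀ N : ℕ, -K0 ≤ ∑ p ∈ range (N + 1), d p)
    (N : ℕ) : -K0 ≤ ∑ p ∈ range (N + 1), d p / p := by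
  have key : ∀ N : ℕ, (∑ p ∈ range (N + 1), d p + K0) / ((N : ℝ) + 1) ≤
      ∑ p ∈ range (N + 1), d p / p + K0 := by
    intro N
    induction N with
    | zero => simp [h0]
    | succ N ih =>
      rw [sum_range_succ (fun p => d p / (p : ℝ)) (N + 1)]
      have hN : (0 : ℝ) < (N : ℝ) + 1 := by positivity
      have h1 : (∑ p ∈ range (N + 1 + 1), d p + K0) / (((N + 1 : ℕ) : ℝ) + 1) ≤
          (∑ p ∈ range (N + 1 + 1), d p + K0) / ((N : ℝ) + 1) := by
        have h2 : 0 ≤ ∑ p ∈ range (N + 1 + 1), d p + K0 := by linarith [hK (N + 1)]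
        apply div_le_div_of_nonneg_left h2 hN
        push_cast
        linarith
      refine h1.trans ?_
      rw [sum_range_succ d (N + 1)]
      have h2 : (∑ p ∈ range (N + 1), d p + d (N + 1) + K0) / ((N : ℝ) + 1) =
          (∑ p ∈ range (N + 1), d p + K0) / ((N : ℝ) + 1) + d (N + 1) / ((N : ℝ) + 1) := by
        rw [← add_div]
        congr 1
        ring
      rw [h2]
      push_cast
      linarith
  have h1 := key N
  have h2 : 0 ≤ (∑ p ∈ range (N + 1), d p + K0) / ((N : ℝ) + 1) :=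
    div_nonneg (by linarith [hK N]) (by positivity)
  linarith

/-- the primes with a given Frobenius element -/
theorem dvg_of {M : Type} [Field M] [NumberField M] [IsGalois ℚ M] (g : Gal(M/ℚ)) (D : ℕ) (hD : 0 < D)
    (n : ℕ) (hn : 0 < n) (P : Set ℕ) (hP : ∀ l ∈ P, l.Prime)
    (h : ∀ l : ℕ, l.Prime → ¬ l ∣ D → xp M g l ≠ 0 → l ∈ P)
    (hle : ∀ l : ℕ, l.Prime → ¬ l ∣ D → xp M g l ≤ n) : Dvg P := by
  classical
  refine ⟨hP, fun R => ?_⟩
  have hxp : ∀ p : ℕ, ¬ p.Prime → xp M g p = 0 := by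
    intro p hp
    unfold xp
    rw [dif_neg hp]
  -- the mean value
  have hlim := Pool.Agent.W401.Cheb.chebotarev M g
  have h3 : ∀ᶠ N : ℕ in Filter.atTop, (1 / 2 : ℝ) <
      (∑ p ∈ Pool.Agent.W401.Cheb.pr N, (xp M g p : ℝ)) / (Nat.primeCounting N : ℝ) :=
    hlim.eventually (lt_mem_nhds (by norm_num))
  obtain ⟨N0, hN0⟩ := Filter.eventually_atTop.1 h3
  obtain ⟨d, hd⟩ : ∃ d : ℕ → ℝ, d = fun p => (xp M g p : ℝ) - (if p.Prime then 1 / 2 else 0) := ⟨_, rfl⟩
  have hd0 : d 0 = 0 := by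
    rw [hd]
    simp only
    rw [hxp 0 Nat.not_prime_zero, if_neg Nat.not_prime_zero]
    simp
  have hcount : ∀ N : ℕ, ∑ p ∈ range (N + 1), (if p.Prime then (1 / 2 : ℝ) else 0) =
      (Nat.primeCounting N : ℝ) / 2 := by
    intro N
    rw [← sum_filter, sum_const, nsmul_eq_mul]
    have h4 : ((range (N + 1)).filter Nat.Prime).card = Nat.primeCounting N := by
      rw [Nat.primeCounting, Nat.primeCounting', Nat.count_eq_card_filter_range]
    rw [h4]
    ring
  have hsx : ∀ N : ℕ, ∑ p ∈ range (N + 1), (xp M g p : ℝ) =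
      ∑ p ∈ Pool.Agent.W401.Cheb.pr N, (xp M g p : ℝ) := by
    intro N
    unfold Pool.Agent.W401.Cheb.pr
    rw [sum_filter]
    refine sum_congr rfl fun p _ => ?_
    split_ifs with hp
    · rfl
    · rw [hxp p hp, Nat.cast_zero]
  have hK : ∀ N : ℕ, -(N0 : ℝ) ≤ ∑ p ∈ range (N + 1), d p := by
    intro N
    rw [hd]
    simp only
    rw [sum_sub_distrib, hcount, hsx]
    rcases Nat.lt_or_ge N N0 with hN | hN
    · have h4 : (Nat.primeCounting N : ℝ) ≤ N0 := by
        have h5 : Nat.primeCounting N ≤ N + 1 := by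
          rw [Nat.primeCounting, Nat.primeCounting', Nat.count_eq_card_filter_range]
          exact (card_filter_le _ _).trans (by rw [card_range])
        exact_mod_cast h5.trans hN
      have h5 : (0 : ℝ) ≤ ∑ p ∈ Pool.Agent.W401.Cheb.pr N, (xp M g p : ℝ) :=
        sum_nonneg fun p _ => Nat.cast_nonneg _
      have h6 : (0 : ℝ) ≤ (Nat.primeCounting N : ℝ) := Nat.cast_nonneg _
      linarith
    · have h4 := hN0 N hN
      have h6 : (0 : ℝ) ≤ (Nat.primeCounting N : ℝ) := Nat.cast_nonneg _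
      have h7 : (0 : ℝ) ≤ N0 := Nat.cast_nonneg _
      rcases h6.eq_or_lt with h8 | h8
      · rw [← h8, div_zero] at h4
        norm_num at h4
      · rw [lt_div_iff₀ h8] at h4
        linarith
  have habel := abel_sum hd0 hK
  -- the sum over all primes
  have hns := not_summable_one_div_on_primes
  rw [not_summable_iff_tendsto_nat_atTop_of_nonneg (by
    intro k
    refine Set.indicator_nonneg (fun _ _ => by positivity) k)] at hns
  obtain ⟨K1, hK1⟩ : ∃ K1 : ℝ, K1 = ∑ p ∈ D.divisors, (xp M g p : ℝ) := ⟨_, rfl⟩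
  obtain ⟨N1, hN1⟩ := Filter.eventually_atTop.1
    (hns.eventually_ge_atTop (2 * ((N0 : ℝ) + K1 + n * R)))
  have h4 := hN1 (N1 + 1) (by omega)
  have h5 := habel N1
  have h6 : ∑ p ∈ range (N1 + 1), d p / p = ∑ p ∈ range (N1 + 1), (xp M g p : ℝ) / p -
      (1 / 2) * ∑ p ∈ range (N1 + 1), Set.indicator {p | p.Prime} (fun n : ℕ => (1 : ℝ) / n) p := by
    rw [mul_sum, ← sum_sub_distrib]
    refine sum_congr rfl fun p _ => ?_
    rw [hd]
    simp only
    by_cases hp : p.Prime
    · rw [if_pos hp, Set.indicator_of_mem (show p ∈ {p | Nat.Prime p} from hp)]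
      ring
    · rw [if_neg hp, Set.indicator_of_notMem (show p ∉ {p | Nat.Prime p} from hp)]
      ring
  rw [h6] at h5
  refine ⟨(N1 : ℝ), ?_⟩
  have hpr : pr (N1 : ℝ) = (Icc 1 N1).filter Nat.Prime := by
    unfold pr
    rw [Nat.floor_natCast]
  have h7 : ∑ p ∈ range (N1 + 1), (xp M g p : ℝ) / p ≤
      n * ∑ l ∈ (pr (N1 : ℝ)).filter (fun l => l ∈ P), (1 : ℝ) / l + K1 := by
    have h8 : ∀ p ∈ range (N1 + 1), (xp M g p : ℝ) / p ≤
        (if p ∈ (pr (N1 : ℝ)).filter (fun l => l ∈ P) then (n : ℝ) * (1 / p) else 0) +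
          (if p ∈ D.divisors then (xp M g p : ℝ) else 0) := by
      intro p hpN
      have hx0 : (0 : ℝ) ≤ xp M g p := Nat.cast_nonneg _
      by_cases hp : p.Prime
      · have hp1 : (1 : ℝ) ≤ p := by exact_mod_cast hp.one_le
        by_cases hpD : p ∣ D
        · rw [if_pos (Nat.mem_divisors.2 ⟨hpD, hD.ne'⟩)]
          have h9 : (xp M g p : ℝ) / p ≤ xp M g p := div_le_self hx0 hp1
          have h10 : (0 : ℝ) ≤ if p ∈ (pr (N1 : ℝ)).filter (fun l => l ∈ P) then (n : ℝ) * (1 / p) else 0 := by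
            split_ifs
            · positivity
            · exact le_rfl
          linarith
        · rw [if_neg (fun h => hpD (Nat.mem_divisors.1 h).1), add_zero]
          by_cases hx : xp M g p = 0
          · rw [hx, Nat.cast_zero, zero_div]
            split_ifs
            · positivity
            · exact le_rfl
          · have h9 := h p hp hpD hx
            have h10 : p ∈ (pr (N1 : ℝ)).filter (fun l => l ∈ P) := by
              rw [hpr]
              refine mem_filter.2 ⟨mem_filter.2 ⟨mem_Icc.2 ⟨hp.one_le, ?_⟩, hp⟩, h9⟩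
              have := mem_range.1 hpN
              omega
            rw [if_pos h10]
            have h11 : (xp M g p : ℝ) ≤ n := by exact_mod_cast hle p hp hpD
            rw [mul_one_div]
            exact div_le_div_of_nonneg_right h11 (by linarith)
      · rw [hxp p hp, Nat.cast_zero, zero_div]
        have h10 : (0 : ℝ) ≤ if p ∈ (pr (N1 : ℝ)).filter (fun l => l ∈ P) then (n : ℝ) * (1 / p) else 0 := by
          split_ifs
          · positivity
          · exact le_rfl
        have h11 : (0 : ℝ) ≤ if p ∈ D.divisors then (0 : ℝ) else 0 := by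
          split_ifs <;> exact le_rfl
        linarith
    refine (sum_le_sum h8).trans ?_
    rw [sum_add_distrib, mul_sum]
    refine add_le_add ?_ ?_
    · rw [← sum_filter]
      refine sum_le_sum_of_subset_of_nonneg (fun p hp => (mem_filter.1 hp).2) fun p _ _ => by positivity
    · rw [hK1, ← sum_filter]
      refine sum_le_sum_of_subset_of_nonneg (fun p hp => (mem_filter.1 hp).2) fun p _ _ => Nat.cast_nonneg _
  have hn0 : (0 : ℝ) < n := by exact_mod_cast hn
  have h8 : (n : ℝ) * R ≤ n * ∑ l ∈ (pr (N1 : ℝ)).filter (fun l => l ∈ P), (1 : ℝ) / l := by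
    linarith
  have h9 := le_of_mul_le_mul_left h8 hn0
  refine h9.trans (le_of_eq ?_)
  refine sum_congr ?_ fun _ _ => rfl
  ext l
  simp only [mem_filter]

theorem exists_normal {F A : Type} [Field F] [Field A] [Algebra F A] [IsAlgClosed A]
    [Algebra.IsAlgebraic F A] (K : IntermediateField F A) (hK : FiniteDimensional F K) (w : A) :
    ∃ N : IntermediateField F A, K ≤ N ∧ w ∈ N ∧ FiniteDimensional F N ∧ Normal F N := by
  have hwi : IsIntegral F w := (Algebra.IsAlgebraic.isAlgebraic (R := F) w).isIntegral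
  have hwf : FiniteDimensional F (IntermediateField.adjoin F {w}) :=
    IntermediateField.adjoin.finiteDimensional hwi
  obtain ⟨E0, hE0⟩ : ∃ E0 : IntermediateField F A, E0 = K ⊔ IntermediateField.adjoin F {w} := ⟨_, rfl⟩
  have hE0f : FiniteDimensional F E0 := by rw [hE0]; infer_instance
  have hwE : w ∈ E0 := by
    rw [hE0]
    exact (le_sup_right : _ ≤ K ⊔ IntermediateField.adjoin F {w})
      (IntermediateField.mem_adjoin_simple_self F w)
  have hKE : K ≤ E0 := by rw [hE0]; exact le_sup_left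
  have hNC : IsNormalClosure F E0 (IntermediateField.normalClosure F E0 A) :=
    Algebra.IsAlgebraic.isNormalClosure_normalClosure (fun x => IsAlgClosed.splits _)
  have hle : E0 ≤ IntermediateField.normalClosure F E0 A := IntermediateField.le_normalClosure E0
  exact ⟨IntermediateField.normalClosure F E0 A, hKE.trans hle, hle hwE, inferInstance, hNC.normal⟩

theorem nf_of {N : Type} [Field N] (i : Algebra ℚ N) (h : FiniteDimensional ℚ N) (hn : Normal ℚ N) :
    ∃ (_ : NumberField N), @IsGalois ℚ _ N _ DivisionRing.toRatAlgebra := by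
  have hch : CharZero N := algebraRat.charZero N
  obtain rfl : i = DivisionRing.toRatAlgebra := Subsingleton.elim _ _
  exact ⟨{ to_charZero := hch, to_finiteDimensional := h }, {}⟩

theorem exists_field {A : Type} [Field A] [Algebra ℚ A] [IsAlgClosure ℚ A] (K : IntermediateField ℚ A)
    (hK : FiniteDimensional ℚ K) (w : A) :
    ∃ (M : Type) (_ : Field M) (_ : NumberField M) (_ : IsGalois ℚ M)
      (e : M →+* A), (∀ x ∈ K, ∃ y, e y = x) ∧ ∃ y, e y = w := by
  have hA : IsAlgClosed A := IsAlgClosure.isAlgClosed ℚ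
  obtain ⟨N, hKN, hwN, hfd, hn⟩ := exists_normal K (by convert hK) w
  obtain ⟨hnf, hg⟩ := nf_of _ hfd hn
  exact ⟨N, inferInstance, hnf, hg, (algebraMap N A), fun x hx => ⟨⟨x, hKN hx⟩, rfl⟩,
    ⟨⟨w, hwN⟩, rfl⟩⟩

theorem chb : S_CHB := by
  intro A _ _ _ K hKf hKn w hw2 hw
  have hN : Normal ℚ A := IsAlgClosure.normal ℚ A
  have hGal : IsGalois ℚ A := {}
  obtain ⟨M, _, _, _, e, heK, hew⟩ := exists_field K hKf w
  -- an automorphism which changes the sign of `w`
  obtain ⟨φ1, hφ1K, hφ1w⟩ : ∃ φ1 : A ≃ₐ[ℚ] A, φ1 ∈ K.fixingSubgroup ∧ φ1 w = -w := by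
    have h1 : ∃ φ1 : A ≃ₐ[ℚ] A, φ1 ∈ K.fixingSubgroup ∧ φ1 w ≠ w := by
      by_contra hcon
      push Not at hcon
      apply hw
      have h2 := InfiniteGalois.fixedField_fixingSubgroup K
      rw [← h2, IntermediateField.mem_fixedField_iff]
      exact hcon
    obtain ⟨φ1, h2, h3⟩ := h1
    refine ⟨φ1, h2, ?_⟩
    have h4 : φ1 (w ^ 2) = w ^ 2 := (IntermediateField.mem_fixingSubgroup_iff K φ1).1 h2 _ hw2
    rw [map_pow] at h4
    rcases sq_eq_sq_iff_eq_or_eq_neg.1 h4 with h5 | h5
    · exact absurd h5 h3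
    · exact h5
  obtain ⟨g, hg⟩ := exists_res e φ1
  obtain ⟨D, hD0, hD⟩ := frob_core W54.ChTor.main e
  refine dvg_of g D hD0 (Nat.card Gal(M/ℚ)) Nat.card_pos _ (fun l hl => hl.1) ?_ ?_
  · intro l hl hlD hx
    have : Fact l.Prime := ⟨hl⟩
    unfold xp at hx
    rw [dif_pos hl] at hx
    obtain ⟨⟨ψ, hψ⟩⟩ := (Nat.card_ne_zero.1 hx).1
    obtain ⟨V, φ, h1, h2, h3⟩ := (hD l hlD).2 g ψ hψ
    refine ⟨hl, V, φ, h1, h2, ?_, ?_⟩
    · rw [IntermediateField.mem_fixingSubgroup_iff]
      intro x hx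
      have h5 := (IntermediateField.mem_fixingSubgroup_iff K φ1).1 hφ1K x hx
      obtain ⟨y, rfl⟩ := heK x hx
      rw [h3, ← hg]
      exact h5
    · obtain ⟨y, rfl⟩ := hew
      rw [h3, ← hg]
      exact hφ1w
  · intro l hl hlD
    have : Fact l.Prime := ⟨hl⟩
    rw [← (hD l hlD).1]
    unfold xp
    rw [dif_pos hl]
    have hfin : Finite (𝓞 M →+* AlgebraicClosure (ZMod l)) := by
      refine Nat.finite_of_card_ne_zero ?_
      rw [(hD l hlD).1]
      exact Nat.card_pos.ne'
    exact Nat.card_le_card_of_injective _ Subtype.val_injective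

end Pool.Agent.Q224.OD
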