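import Pool.Agent.Q161.OD.Stm
import Pool.Agent.Q154.EL.CH1a
import Pool.Agent.Q150.SX.Plc

/-! # Project OD (helper161), job CHB, part one: Frobenius elements in the algebraic closure (helper224) -/

set_option autoImplicit false

namespace Pool.Agent.Q224.OD

open Polynomial NumberField Finset
open Pool.Agent.Q51.EL
open Pool.Agent.Q161.SX
open Pool.Agent.Q161.OD
open Pool.Agent.W401.Cheb (TaskTor HasFrob Chebotarev xp)

theorem exists_hom {B : Type} [CommRing B] [Algebra.IsIntegral ℤ B] (p : ℕ) [Fact p.Prime]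
    (Q : Ideal B) (hQ : Q.IsMaximal) (hp : ((p : ℕ) : B) ∈ Q) :
    ∃ f : B →+* AlgebraicClosure (ZMod p), ∀ x, f x = 0 ↔ x ∈ Q := by
  let : Field (B ⧸ Q) := Ideal.Quotient.field Q
  have hp0 : ((p : ℕ) : B ⧸ Q) = 0 := by
    have h2 := Ideal.Quotient.eq_zero_iff_mem.mpr hp
    rwa [map_natCast] at h2
  have : CharP (B ⧸ Q) p := (CharP.charP_iff_prime_eq_zero Fact.out).mpr hp0
  let : Algebra (ZMod p) (B ⧸ Q) := ZMod.algebra _ p
  have : Algebra.IsAlgebraic (ZMod p) (B ⧸ Q) := by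
    constructor
    intro y
    obtain ⟨b, rfl⟩ := Ideal.Quotient.mk_surjective y
    obtain ⟨q, hq, hq'⟩ := Algebra.IsIntegral.isIntegral (R := ℤ) b
    apply IsIntegral.isAlgebraic
    refine ⟨q.map (Int.castRingHom (ZMod p)), hq.map _, ?_⟩
    rw [eval₂_map]
    have h3 : (algebraMap (ZMod p) (B ⧸ Q)).comp (Int.castRingHom (ZMod p)) =
        (Ideal.Quotient.mk Q).comp (algebraMap ℤ B) := RingHom.ext_int _ _
    rw [h3, ← hom_eval₂, hq', map_zero]
  let ℓ : (B ⧸ Q) →ₐ[ZMod p] AlgebraicClosure (ZMod p) := IsAlgClosed.lift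
  refine ⟨(ℓ : (B ⧸ Q) →+* AlgebraicClosure (ZMod p)).comp (Ideal.Quotient.mk Q), fun x => ?_⟩
  rw [RingHom.comp_apply, ← Ideal.Quotient.eq_zero_iff_mem]
  exact map_eq_zero_iff _ (RingHom.injective _)

/-- an automorphism of the algebraic closure acts on the image of a Galois field -/
theorem exists_res {A : Type} [Field A] [Algebra ℚ A] {M : Type} [Field M] [NumberField M]
    [IsGalois ℚ M] (e : M →+* A) (τ : A ≃ₐ[ℚ] A) : ∃ σ : Gal(M/ℚ), ∀ x, τ (e x) = e (σ x) := by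
  let _ : Algebra M A := e.toAlgebra
  have hst : IsScalarTower ℚ M A := IsScalarTower.of_algebraMap_eq' (Subsingleton.elim _ _)
  exact ⟨AlgEquiv.restrictNormal τ M, fun x => (AlgEquiv.restrictNormal_commutes τ M x).symm⟩

theorem exists_lift {A : Type} [Field A] [Algebra ℚ A] [IsAlgClosure ℚ A] {M : Type} [Field M]
    [NumberField M] [IsGalois ℚ M] (e : M →+* A) (σ : Gal(M/ℚ)) :
    ∃ τ : A ≃ₐ[ℚ] A, ∀ x, τ (e x) = e (σ x) := by
  let _ : Algebra M A := e.toAlgebra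
  have hst : IsScalarTower ℚ M A := IsScalarTower.of_algebraMap_eq' (Subsingleton.elim _ _)
  have hN : Normal ℚ A := IsAlgClosure.normal ℚ A
  exact ⟨AlgEquiv.liftNormal σ A, fun x => AlgEquiv.liftNormal_commutes σ A x⟩

/-- Frobenius elements of a Galois field come from Frobenius elements of the algebraic closure -/
theorem frob_core (hTor : TaskTor) {A : Type} [Field A] [Algebra ℚ A] [IsAlgClosure ℚ A] {M : Type}
    [Field M] [NumberField M] [IsGalois ℚ M] (e : M →+* A) :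
    ∃ D : ℕ, 0 < D ∧ ∀ (l : ℕ) [Fact l.Prime], ¬ l ∣ D →
      Nat.card (𝓞 M →+* AlgebraicClosure (ZMod l)) = Nat.card Gal(M/ℚ) ∧
      ∀ (g : Gal(M/ℚ)) (ψ : 𝓞 M →+* AlgebraicClosure (ZMod l)), HasFrob l ψ g →
      ∃ (V : ValuationSubring A) (φ : A ≃ₐ[ℚ] A), (l : A) ∈ V.nonunits ∧ Frb V l φ ∧
        ∀ x : M, φ (e x) = e (g x) := by
  obtain ⟨D, hD0, hD⟩ := hTor M
  refine ⟨D, hD0, fun l hl hlD => ?_⟩
  obtain ⟨h1, h2, -⟩ := hD l hlD
  refine ⟨h1, fun g ψ hψ => ?_⟩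
  obtain ⟨V0, φ0, hV0, hφ0⟩ := Pool.Agent.Q150.SX.plc A l hl.out
  obtain ⟨s0, hs0⟩ := exists_res e φ0
  -- the residue map
  have hmem : ∀ x : 𝓞 M, e (x : M) ∈ V0 := by
    intro x
    have hi : IsIntegral ℤ (x : M) := RingOfIntegers.isIntegral_coe x
    have h3 : IsIntegral ℤ (e (x : M)) := by
      obtain ⟨q, hq, hq'⟩ := hi
      refine ⟨q, hq, ?_⟩
      have h4 := congrArg e hq'
      rw [hom_eval₂, map_zero] at h4
      rw [← h4]
      congr 1
      exact RingHom.ext_int _ _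
    have h5 : IsIntegral V0 (e (x : M)) := by
      obtain ⟨q, hq, hq'⟩ := h3
      refine ⟨q.map (Int.castRingHom V0), hq.map _, ?_⟩
      rw [eval₂_map]
      rw [← hq']
      congr 1
    obtain ⟨y, hy⟩ := IsIntegrallyClosed.algebraMap_eq_of_integral (R := V0) (K := A) h5
    rw [← hy]
    exact y.2
  let r0 : 𝓞 M →+* V0 := (e.comp (algebraMap (𝓞 M) M)).codRestrict V0.toSubring hmem
  have hr0 : ∀ x, ((r0 x : V0) : A) = e (x : M) := fun x => rfl
  obtain ⟨Q, hQ⟩ : ∃ Q : Ideal (𝓞 M), Q = (IsLocalRing.maximalIdeal V0).comap r0 := ⟨_, rfl⟩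
  have hQm : ∀ x, x ∈ Q ↔ e (x : M) ∈ V0.nonunits := by
    intro x
    rw [hQ, Ideal.mem_comap, ← hr0 x]
    exact (ValuationSubring.coe_mem_nonunits_iff (a := r0 x)).symm
  have hlQ : ((l : ℕ) : 𝓞 M) ∈ Q := by
    rw [hQm]
    have h3 : (((l : ℕ) : 𝓞 M) : M) = (l : M) := map_natCast (algebraMap (𝓞 M) M) l
    rw [h3, map_natCast]
    exact hV0
  have hQp : Q.IsPrime := by rw [hQ]; exact Ideal.comap_isPrime _ _
  have hQ0 : Q ≠ ⊥ := by
    intro h
    rw [h, Ideal.mem_bot] at hlQ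
    exact hl.out.ne_zero (by exact_mod_cast hlQ)
  have hQmax : Q.IsMaximal := hQp.isMaximal hQ0
  have hint : Algebra.IsIntegral ℤ (𝓞 M) := inferInstance
  obtain ⟨ψ', hψ'⟩ := exists_hom l Q hQmax hlQ
  have heq : ∀ x y : 𝓞 M, ψ' x = ψ' y ↔ e (x : M) - e (y : M) ∈ V0.nonunits := by
    intro x y
    rw [← sub_eq_zero, ← map_sub, hψ', hQm]
    rw [show ((x - y : 𝓞 M) : M) = (x : M) - (y : M) from rfl, map_sub]
  have hfr : ∀ x : 𝓞 M, ψ' (s0 • x) = ψ' x ^ l := by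
    intro x
    rw [← map_pow, heq]
    have h3 := hφ0.2 (e (x : M)) (hmem x)
    rw [hs0] at h3
    have h4 : ((s0 • x : 𝓞 M) : M) = s0 (x : M) := rfl
    have h5 : ((x ^ l : 𝓞 M) : M) = (x : M) ^ l := rfl
    rw [h4, h5, map_pow]
    exact h3
  obtain ⟨σ, hσ, -⟩ := h2 ψ' ψ
  -- conjugation
  have hcomm : σ * g = s0 * σ := by
    have h3 : ∀ x : 𝓞 M, ψ' ((σ * g) • x) = ψ' ((s0 * σ) • x) := by
      intro x
      rw [mul_smul, mul_smul, ← hσ, hψ, hfr, hσ]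
    obtain ⟨ρ, -, hρ⟩ := h2 ψ' (ψ'.comp (MulSemiringAction.toRingHom Gal(M/ℚ) (𝓞 M) (σ * g)))
    have e1 := hρ (σ * g) (fun x => rfl)
    have e2 := hρ (s0 * σ) (fun x => h3 x)
    rw [e1, e2]
  have hcomm' : ∀ x : M, σ (g x) = s0 (σ x) := fun x => by
    have := congrArg (fun ρ : Gal(M/ℚ) => ρ x) hcomm
    exact this
  obtain ⟨τ, hτ⟩ := exists_lift e σ
  have hnon : ∀ z : A, z ∈ (V0.comap (τ : A →+* A)).nonunits ↔ τ z ∈ V0.nonunits := by
    intro z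
    rw [ValuationSubring.mem_nonunits_iff_or, ValuationSubring.mem_nonunits_iff_or,
      ValuationSubring.mem_comap]
    have h3 : τ z = 0 ↔ z = 0 := map_eq_zero_iff τ τ.injective
    have h4 : (τ : A →+* A) z⁻¹ = (τ z)⁻¹ := map_inv₀ τ z
    rw [h3, h4]
  refine ⟨V0.comap (τ : A →+* A), (τ.trans φ0).trans τ.symm, ?_, ⟨?_, ?_⟩, ?_⟩
  · rw [hnon, map_natCast]
    exact hV0
  · intro z
    rw [ValuationSubring.mem_comap, ValuationSubring.mem_comap]
    show τ (τ.symm (φ0 (τ z))) ∈ V0 ↔ τ z ∈ V0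
    rw [AlgEquiv.apply_symm_apply]
    exact hφ0.1 (τ z)
  · intro z hz
    rw [ValuationSubring.mem_comap] at hz
    rw [hnon]
    show τ (τ.symm (φ0 (τ z)) - z ^ l) ∈ V0.nonunits
    rw [map_sub, AlgEquiv.apply_symm_apply, map_pow]
    exact hφ0.2 (τ z) hz
  · intro x
    show τ.symm (φ0 (τ (e x))) = e (g x)
    rw [hτ, hs0, ← hcomm', ← hτ, AlgEquiv.symm_apply_apply]

end Pool.Agent.Q224.OD
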